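import Pool.Agent.Y289.HI.Stm5

set_option autoImplicit false

/-!
# Project HI (helper289), part PA (by helper383): the values of the isoperimetric quotient
-/

namespace Pool.Agent.Y383.HI

open Filter Topology
open scoped Real

/-- the isoperimetric quotient -/
noncomputable def G (n : ℕ) (β : ℝ) : ℝ :=
  ((n : ℝ) + 2) * Real.tan (β / 2) + Real.tan (π - ((n : ℝ) + 2) * β / 2)

lemma cos_ne {x : ℝ} (h1 : 0 ≤ x) (h2 : x < π / 2) : Real.cos x ≠ 0 :=
  (Real.cos_pos_of_mem_Ioo ⟨by linarith [Real.pi_pos], h2⟩).ne'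

lemma G_cont {n : ℕ} {b : ℝ} (h2 : b < π) (h3 : ((n : ℝ) + 2) * b ≤ 2 * π) :
    ContinuousOn (G n) (Set.Icc (2 * π / ((n : ℝ) + 3)) b) := by
  have hn : (0 : ℝ) < (n : ℝ) + 3 := by positivity
  have hπ := Real.pi_pos
  refine ContinuousOn.add
    (continuousOn_const.mul (Real.continuousOn_tan.comp (by fun_prop) ?_))
    (Real.continuousOn_tan.comp (by fun_prop) ?_)
  · rintro x ⟨hx1, hx2⟩
    have h0 : 0 < 2 * π / ((n : ℝ) + 3) := by positivity
    exact cos_ne (by linarith) (by linarith)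
  · rintro x ⟨hx1, hx2⟩
    refine cos_ne ?_ ?_
    · have := mul_le_mul_of_nonneg_left hx2 (by positivity : (0 : ℝ) ≤ (n : ℝ) + 2)
      linarith
    · rw [div_le_iff₀ hn] at hx1
      have h4 : ((n : ℝ) + 2) * x = x * ((n : ℝ) + 3) - x := by ring
      linarith

lemma main {n : ℕ} {b F : ℝ} (h1 : 2 * π / ((n : ℝ) + 3) ≤ b) (h2 : b < π)
    (h3 : ((n : ℝ) + 2) * b ≤ 2 * π)
    (h4 : ((n : ℝ) + 3) * Real.tan (π / ((n : ℝ) + 3)) ≤ F) (h5 : F ≤ G n b)
    (h6 : ((n : ℝ) + 2) * b < 2 * π ∨ F < G n b) :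
    ∃ β γ : ℝ, 0 < γ ∧ γ ≤ β ∧ β < π ∧ ((n : ℝ) + 2) * β + γ = 2 * π ∧
      ((n : ℝ) + 2) * Real.tan (β / 2) + Real.tan (γ / 2) = F := by
  have hn : (0 : ℝ) < (n : ℝ) + 3 := by positivity
  have hG : G n (2 * π / ((n : ℝ) + 3)) = ((n : ℝ) + 3) * Real.tan (π / ((n : ℝ) + 3)) := by
    unfold G
    have e1 : 2 * π / ((n : ℝ) + 3) / 2 = π / ((n : ℝ) + 3) := by ring
    have e2 : π - ((n : ℝ) + 2) * (2 * π / ((n : ℝ) + 3)) / 2 = π / ((n : ℝ) + 3) := by
      field_simp
      ring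
    rw [e1, e2]
    ring
  obtain ⟨β, ⟨hβ1, hβ2⟩, hβ⟩ := intermediate_value_Icc h1 (G_cont h2 h3) ⟨hG.le.trans h4, h5⟩
  refine ⟨β, 2 * π - ((n : ℝ) + 2) * β, ?_, ?_, by linarith, by ring, ?_⟩
  · rcases h6 with h6 | h6
    · have := mul_le_mul_of_nonneg_left hβ2 (by positivity : (0 : ℝ) ≤ (n : ℝ) + 2)
      linarith
    · have hne : β ≠ b := by
        rintro rfl
        exact h6.ne' hβ
      have := mul_lt_mul_of_pos_left (lt_of_le_of_ne hβ2 hne)
        (by positivity : (0 : ℝ) < (n : ℝ) + 2)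
      linarith
  · rw [div_le_iff₀ hn] at hβ1
    have h7 : ((n : ℝ) + 2) * β = β * ((n : ℝ) + 3) - β := by ring
    linarith
  · rw [← hβ]
    unfold G
    have e3 : (2 * π - ((n : ℝ) + 2) * β) / 2 = π - ((n : ℝ) + 2) * β / 2 := by ring
    rw [e3]

lemma ex_N {F : ℝ} (hF : π < F) : ∃ N : ℕ, 3 ≤ N ∧ (N : ℝ) * Real.tan (π / N) ≤ F := by
  have hπ := Real.pi_pos
  have hF0 : 0 < F := hπ.trans hF
  have h1 : Tendsto (fun N : ℕ => Real.cos (π / N)) atTop (𝓝 (Real.cos 0)) :=
    (Real.continuous_cos.tendsto 0).comp (tendsto_const_div_atTop_nhds_zero_nat π)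
  rw [Real.cos_zero] at h1
  have h2 : π / F < 1 := (div_lt_one hF0).2 hF
  obtain ⟨N, hN1, hN2⟩ := ((h1.eventually (lt_mem_nhds h2)).and (eventually_ge_atTop 3)).exists
  refine ⟨N, hN2, ?_⟩
  have hN0 : (0 : ℝ) < N := by
    have : 0 < N := by omega
    exact_mod_cast this
  have hc : 0 < Real.cos (π / N) := lt_trans (by positivity) hN1
  have h3 : Real.sin (π / N) ≤ π / N := Real.sin_le (by positivity)
  rw [Real.tan_eq_sin_div_cos, mul_div_assoc', div_le_iff₀ hc]
  rw [div_lt_iff₀ hF0] at hN1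
  have h4 : (N : ℝ) * Real.sin (π / N) ≤ N * (π / N) := mul_le_mul_of_nonneg_left h3 hN0.le
  rw [mul_div_cancel₀ _ hN0.ne'] at h4
  linarith

theorem pa : Pool.Agent.Y289.HI.S_PA := by
  classical
  intro F hF
  have hπ := Real.pi_pos
  have hF0 : 0 < F := hπ.trans hF
  by_cases h : 3 * Real.tan (π / 3) ≤ F
  · have ht : 0 < Real.tan (π / 3) :=
      Real.tan_pos_of_pos_of_lt_pi_div_two (by positivity) (by linarith)
    have h1 : π / 3 ≤ Real.arctan F := by
      have h2 := Real.arctan_strictMono.monotone (by linarith : Real.tan (π / 3) ≤ F)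
      rwa [Real.arctan_tan (by linarith) (by linarith)] at h2
    have h2 : Real.arctan F < π / 2 := Real.arctan_lt_pi_div_two F
    have hG : F ≤ G 0 (2 * Real.arctan F) := by
      unfold G
      have e1 : 2 * Real.arctan F / 2 = Real.arctan F := by ring
      have e2 : π - (((0 : ℕ) : ℝ) + 2) * (2 * Real.arctan F) / 2 = π - 2 * Real.arctan F := by
        push_cast
        ring
      rw [e1, e2, Real.tan_arctan]
      have h3 : 0 ≤ Real.tan (π - 2 * Real.arctan F) :=
        Real.tan_nonneg_of_nonneg_of_le_pi_div_two (by linarith) (by linarith)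
      push_cast
      linarith
    obtain ⟨β, γ, hβ⟩ := main (n := 0) (b := 2 * Real.arctan F) (F := F)
      (by push_cast; linarith) (by linarith) (by push_cast; linarith)
      (by
        have e : ((0 : ℕ) : ℝ) + 3 = 3 := by norm_num
        rw [e]
        exact h) hG (Or.inl (by push_cast; linarith))
    exact ⟨0, β, γ, hβ⟩
  · have hex := ex_N hF
    obtain ⟨h1, h2⟩ := Nat.find_spec hex
    have h3 : Nat.find hex ≠ 3 := by
      intro h4
      rw [h4] at h2
      exact h (by exact_mod_cast h2)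
    obtain ⟨m, hm⟩ : ∃ m, Nat.find hex = m + 4 := ⟨Nat.find hex - 4, by omega⟩
    have h4 := Nat.find_min hex (m := m + 3) (by omega)
    rw [hm] at h2
    have h5 : F < ((m : ℝ) + 3) * Real.tan (π / ((m : ℝ) + 3)) := by
      by_contra h6
      refine h4 ⟨by omega, ?_⟩
      push_cast
      exact not_lt.1 h6
    have hm0 : (0 : ℝ) ≤ m := Nat.cast_nonneg m
    have hm3 : (0 : ℝ) < (m : ℝ) + 3 := by positivity
    have hG : G (m + 1) (2 * π / ((m : ℝ) + 3)) =
        ((m : ℝ) + 3) * Real.tan (π / ((m : ℝ) + 3)) := by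
      unfold G
      have e1 : 2 * π / ((m : ℝ) + 3) / 2 = π / ((m : ℝ) + 3) := by ring
      have e2 : π - (((m + 1 : ℕ) : ℝ) + 2) * (2 * π / ((m : ℝ) + 3)) / 2 = 0 := by
        push_cast
        field_simp
        ring
      rw [e1, e2, Real.tan_zero, add_zero]
      push_cast
      ring
    obtain ⟨β, γ, hβ⟩ := main (n := m + 1) (b := 2 * π / ((m : ℝ) + 3)) (F := F)
      (by
        push_cast
        exact div_le_div_of_nonneg_left (by positivity) hm3 (by linarith))
      (by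
        rw [div_lt_iff₀ hm3]
        nlinarith)
      (by
        push_cast
        have e : ((m : ℝ) + 1 + 2) * (2 * π / ((m : ℝ) + 3)) = 2 * π := by
          field_simp
          ring
        exact e.le)
      (by
        have e : ((m + 1 : ℕ) : ℝ) + 3 = ((m + 4 : ℕ) : ℝ) := by
          push_cast
          ring
        rw [e]
        exact h2)
      (by rw [hG]; exact h5.le) (Or.inr (by rw [hG]; exact h5))
    exact ⟨m + 1, β, γ, hβ⟩

end Pool.Agent.Y383.HI
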